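import Pool.Agent.Run7.h608.BC.Iface

/-!
# Piece GRO of project BC: the growth condition at a Lebesgue point
-/

set_option autoImplicit false

open MeasureTheory Set Filter Topology
open scoped ENNReal

namespace Run7.h220.BC

open Run7.h608.BC

/-- the averages of `h` at a Lebesgue point are bounded -/
theorem avg_bound {β : ℝ} {h : ℝ → ℝ} {x : ℝ} (hh : Den β h) (hx : Leb h x) :
    ∃ C : ℝ, 0 ≤ C ∧ ∀ r : ℝ, 0 < r → ∫ z in Icc (x - r) (x + r), h z ≤ C * r := by
  have h1 : ∀ᶠ r in 𝓝[>] (0 : ℝ), (∫ z in Icc (x - r) (x + r), |h z - h x|) / r < 1 :=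
    hx.eventually_lt_const one_pos
  rw [eventually_nhdsWithin_iff, Metric.eventually_nhds_iff] at h1
  obtain ⟨r0, hr0, h2⟩ := h1
  refine ⟨1 + 2 * |h x| + 1 / r0, by positivity, ?_⟩
  intro r hr
  rcases lt_or_ge r r0 with hlt | hge
  · have h3 : (∫ z in Icc (x - r) (x + r), |h z - h x|) / r < 1 := by
      apply h2
      · rw [Real.dist_eq, sub_zero, abs_of_pos hr]
        exact hlt
      · exact hr
    rw [div_lt_one hr] at h3
    have hi1 : IntegrableOn (fun z => |h z - h x|) (Icc (x - r) (x + r)) := by
      refine Integrable.abs ?_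
      exact hh.int.integrableOn.sub (integrableOn_const (by simp))
    have hi2 : IntegrableOn (fun _ : ℝ => |h x|) (Icc (x - r) (x + r)) :=
      integrableOn_const (by simp)
    have h4 : ∫ z in Icc (x - r) (x + r), h z ≤
        ∫ z in Icc (x - r) (x + r), (|h z - h x| + |h x|) := by
      refine integral_mono hh.int.integrableOn (hi1.add hi2) fun z => ?_
      show h z ≤ |h z - h x| + |h x|
      have := le_abs_self (h z - h x)
      have := le_abs_self (h x)
      linarith
    have h5 : ∫ z in Icc (x - r) (x + r), (|h z - h x| + |h x|) =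
        (∫ z in Icc (x - r) (x + r), |h z - h x|) + 2 * r * |h x| := by
      rw [integral_add hi1 hi2, setIntegral_const]
      congr 1
      rw [smul_eq_mul]
      congr 1
      rw [Measure.real, Real.volume_Icc, ENNReal.toReal_ofReal (by linarith)]
      ring
    have h6 : 0 ≤ 1 / r0 * r := by positivity
    nlinarith
  · have h3 : ∫ z in Icc (x - r) (x + r), h z ≤ ∫ z, h z :=
      setIntegral_le_integral hh.int (Eventually.of_forall hh.nonneg)
    rw [hh.mass] at h3
    have h4 : 1 ≤ 1 / r0 * r := by
      rw [div_mul_eq_mul_div, one_mul, le_div_iff₀ hr0, one_mul]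
      exact hge
    have h5 : 0 ≤ (1 + 2 * |h x|) * r := by positivity
    nlinarith

theorem t_GRO (hI : S_IDE) : S_GRO := by
  intro β h x hβ hh hx
  obtain ⟨C, hC, havg⟩ := avg_bound hh hx
  have hβ0 : 0 < β := by linarith
  set b : ℝ := 1 / (β - 1) with hb
  have hb0 : 0 < b := by
    rw [hb]
    exact div_pos one_pos (by linarith)
  refine ⟨C * (1 + b), by positivity, ?_⟩
  intro n R hR
  -- the function `ψ`
  set v : ℝ → ℝ := ind (-R - b) R with hv
  have hv0 : ∀ s, 0 ≤ v s ∧ v s ≤ 1 := by
    intro s
    rw [hv]
    unfold ind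
    by_cases hs : s ∈ Icc (-R - b) R
    · rw [indicator_of_mem hs]
      norm_num
    · rw [indicator_of_notMem hs]
      norm_num
  have hvm : Measurable v := measurable_const.indicator measurableSet_Icc
  set u : ℝ → ℝ := fun t => ∫ y, v (t - y) * h y with hu
  have hvi : ∀ t, Integrable (fun y => v (t - y) * h y) := by
    intro t
    refine hh.int.bdd_mul (c := 1) (hvm.comp (by fun_prop)).aestronglyMeasurable
      (Eventually.of_forall fun y => ?_)
    rw [Real.norm_eq_abs, abs_of_nonneg (hv0 _).1]
    exact (hv0 _).2
  have h1 : ∀ t, ind (-R) R t ≤ u t := by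
    intro t
    by_cases ht : t ∈ Icc (-R) R
    · have h2 : u t = ∫ y, h y := by
        rw [hu]
        refine integral_congr_ae (Eventually.of_forall fun y => ?_)
        show v (t - y) * h y = h y
        by_cases hy : y ∈ Icc (0 : ℝ) (1 / (β - 1))
        · have h3 : t - y ∈ Icc (-R - b) R := by
            rw [mem_Icc] at ht hy ⊢
            constructor
            · rw [hb]
              linarith
            · linarith
          rw [hv]
          unfold ind
          rw [indicator_of_mem h3, one_mul]
        · rw [hh.supp y hy, mul_zero]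
      rw [h2, hh.mass]
      unfold ind
      rw [indicator_of_mem ht]
    · unfold ind
      rw [indicator_of_notMem ht]
      exact integral_nonneg fun y => mul_nonneg (hv0 _).1 (hh.nonneg y)
  have h2 := LR_mono β x hβ n _ _ h1
  -- the value of `LR x n u`
  have h3 : LR β x n u = ∫ z, β ^ n * v (β ^ n * (x - z)) * h z := by
    have h4 := hI β h hβ hh (fun s => (v s : ℂ)) (Complex.measurable_ofReal.comp hvm)
      ⟨1, fun t => by
        rw [Complex.norm_real, Real.norm_eq_abs, abs_of_nonneg (hv0 _).1]
        exact (hv0 _).2⟩ n x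
    have h5 : (fun t : ℝ => ∫ y, (v (t - y) : ℂ) * (h y : ℂ)) = fun t => (u t : ℂ) := by
      funext t
      rw [hu]
      show _ = ((∫ y, v (t - y) * h y : ℝ) : ℂ)
      rw [← integral_complex_ofReal]
      refine integral_congr_ae (Eventually.of_forall fun y => ?_)
      push_cast
      rfl
    rw [h5, L_ofReal] at h4
    have h6 : ∫ z, ((β ^ n : ℝ) : ℂ) * (v (β ^ n * (x - z)) : ℂ) * (h z : ℂ) =
        ((∫ z, β ^ n * v (β ^ n * (x - z)) * h z : ℝ) : ℂ) := by
      rw [← integral_complex_ofReal]
      refine integral_congr_ae (Eventually.of_forall fun y => ?_)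
      push_cast
      rfl
    rw [h6] at h4
    exact_mod_cast h4
  have hβn : 0 < β ^ n := pow_pos hβ0 n
  set r : ℝ := (R + b) / β ^ n with hr
  have hr0 : 0 < r := by
    rw [hr]
    exact div_pos (by linarith) hβn
  have h4 : ∫ z, β ^ n * v (β ^ n * (x - z)) * h z ≤
      ∫ z, (Icc (x - r) (x + r)).indicator (fun z => β ^ n * h z) z := by
    refine integral_mono_of_nonneg (Eventually.of_forall fun z => ?_) ?_
      (Eventually.of_forall fun z => ?_)
    · exact mul_nonneg (mul_nonneg hβn.le (hv0 _).1) (hh.nonneg z)
    · exact (hh.int.const_mul _).indicator measurableSet_Icc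
    · show β ^ n * v (β ^ n * (x - z)) * h z ≤
        (Icc (x - r) (x + r)).indicator (fun z => β ^ n * h z) z
      by_cases hz : z ∈ Icc (x - r) (x + r)
      · rw [indicator_of_mem hz]
        have h5 := (hv0 (β ^ n * (x - z))).2
        have h6 := hh.nonneg z
        have h7 : β ^ n * v (β ^ n * (x - z)) ≤ β ^ n := by nlinarith
        exact mul_le_mul_of_nonneg_right h7 h6
      · rw [indicator_of_notMem hz]
        have h5 : v (β ^ n * (x - z)) = 0 := by
          rw [hv]
          unfold ind
          apply indicator_of_notMem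
          intro h6
          apply hz
          rw [mem_Icc] at h6 ⊢
          have e1 : r * β ^ n = R + b := by
            rw [hr]
            field_simp
          constructor
          · by_contra hcon
            push Not at hcon
            have h7 : r < x - z := by linarith
            have h8 : r * β ^ n < (x - z) * β ^ n := mul_lt_mul_of_pos_right h7 hβn
            nlinarith [h6.2]
          · by_contra hcon
            push Not at hcon
            have h7 : r < z - x := by linarith
            have h8 : r * β ^ n < (z - x) * β ^ n := mul_lt_mul_of_pos_right h7 hβn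
            nlinarith [h6.1]
        rw [h5, mul_zero, zero_mul]
  have h5 : ∫ z, (Icc (x - r) (x + r)).indicator (fun z => β ^ n * h z) z =
      β ^ n * ∫ z in Icc (x - r) (x + r), h z := by
    rw [integral_indicator measurableSet_Icc, integral_const_mul]
  have h6 := havg r hr0
  calc LR β x n (ind (-R) R) ≤ LR β x n u := h2
    _ ≤ β ^ n * ∫ z in Icc (x - r) (x + r), h z := by
        rw [h3, ← h5]
        exact h4
    _ ≤ β ^ n * (C * r) := mul_le_mul_of_nonneg_left h6 hβn.le
    _ = C * (R + b) := by
        rw [hr]
        field_simp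
    _ ≤ C * (1 + b) * R := by
        have h7 : R + b ≤ (1 + b) * R := by nlinarith
        calc C * (R + b) ≤ C * ((1 + b) * R) := mul_le_mul_of_nonneg_left h7 hC
          _ = _ := by ring

end Run7.h220.BC
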