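import Pool.Agent.Run7.h608.BC.Iface

/-!
# Piece IDE of project BC
-/

set_option autoImplicit false

open MeasureTheory Set Filter Topology
open scoped ENNReal

namespace Run7.h220.BC

open Run7.h608.BC

theorem ide_step {β : ℝ} {h : ℝ → ℝ} (hβ : 1 < β) (hh : Den β h) {ψ : ℝ → ℂ} (hψ : Measurable ψ)
    (hM : ∃ M : ℝ, ∀ t, ‖ψ t‖ ≤ M) :
    P β (fun t => ∫ y, ψ (t - y) * (h y : ℂ)) =
      fun t => ∫ y, ((β : ℂ) * ψ (β * (t - y))) * (h y : ℂ) := by
  obtain ⟨M, hM⟩ := hM
  have hβ0 : 0 < β := by linarith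
  have hint : Integrable (fun y => (h y : ℂ)) := hh.int.ofReal
  funext t
  unfold P
  show ((β / 2 : ℝ) : ℂ) * ((∫ y, ψ (β * t - y) * (h y : ℂ)) +
    ∫ y, ψ (β * t - 1 - y) * (h y : ℂ)) = _
  have e1 : ∫ z, ψ (β * (t - z)) * (h (β * z) : ℂ) =
      (β : ℂ)⁻¹ * ∫ y, ψ (β * t - y) * (h y : ℂ) := by
    have h1 := Measure.integral_comp_mul_left (fun y => ψ (β * t - y) * (h y : ℂ)) β
    rw [abs_of_pos (inv_pos.2 hβ0)] at h1
    rw [show (fun z => ψ (β * (t - z)) * (h (β * z) : ℂ)) =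
      fun z => ψ (β * t - β * z) * (h (β * z) : ℂ) from by funext z; rw [mul_sub], h1,
      Complex.real_smul, Complex.ofReal_inv]
  have e2 : ∫ z, ψ (β * (t - z)) * (h (β * z - 1) : ℂ) =
      (β : ℂ)⁻¹ * ∫ y, ψ (β * t - 1 - y) * (h y : ℂ) := by
    have h1 := Measure.integral_comp_mul_left
      (fun y => ψ (β * t - 1 - (y - 1)) * (h (y - 1) : ℂ)) β
    rw [abs_of_pos (inv_pos.2 hβ0)] at h1
    have h2 := integral_sub_right_eq_self (μ := (volume : Measure ℝ))
      (fun y => ψ (β * t - 1 - y) * (h y : ℂ)) (1 : ℝ)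
    rw [h2, Complex.real_smul, Complex.ofReal_inv] at h1
    rw [← h1]
    congr 1
    funext z
    congr 2
    ring
  have hi1 : Integrable (fun z => (h (β * z) : ℂ)) := by
    exact Integrable.comp_mul_left' hint hβ0.ne'
  have hi2 : Integrable (fun z => (h (β * z - 1) : ℂ)) := by
    exact Integrable.comp_mul_left' (hint.comp_sub_right 1) hβ0.ne'
  have hψm : Measurable (fun z : ℝ => ψ (β * (t - z))) := hψ.comp (by fun_prop)
  have hj1 : Integrable (fun z => ψ (β * (t - z)) * (h (β * z) : ℂ)) :=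
    hi1.bdd_mul hψm.aestronglyMeasurable (Eventually.of_forall fun z => hM _)
  have hj2 : Integrable (fun z => ψ (β * (t - z)) * (h (β * z - 1) : ℂ)) :=
    hi2.bdd_mul hψm.aestronglyMeasurable (Eventually.of_forall fun z => hM _)
  have e3 : ∫ y, ((β : ℂ) * ψ (β * (t - y))) * (h y : ℂ) =
      ∫ y, (((β : ℂ) * (β / 2)) * (ψ (β * (t - y)) * (h (β * y) : ℂ)) +
        ((β : ℂ) * (β / 2)) * (ψ (β * (t - y)) * (h (β * y - 1) : ℂ))) := by
    refine integral_congr_ae ?_
    filter_upwards [hh.fe] with y hy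
    rw [hy]
    push_cast
    ring
  rw [e3, integral_add (hj1.const_mul _) (hj2.const_mul _), integral_const_mul,
    integral_const_mul, e1, e2]
  have hβc : (β : ℂ) ≠ 0 := by exact_mod_cast hβ0.ne'
  push_cast
  field_simp

theorem t_IDE : S_IDE := by
  intro β h hβ hh ψ hψ hM n x
  have hβ0 : 0 < β := by linarith
  have key : ∀ n : ℕ, (P β)^[n] (fun t => ∫ y, ψ (t - y) * (h y : ℂ)) =
      fun t => ∫ z, (((β ^ n : ℝ) : ℂ) * ψ (β ^ n * (t - z))) * (h z : ℂ) := by
    intro n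
    induction n with
    | zero =>
      funext t
      simp
    | succ n ih =>
      rw [Function.iterate_succ_apply', ih]
      have hm : Measurable (fun s : ℝ => ((β ^ n : ℝ) : ℂ) * ψ (β ^ n * s)) :=
        measurable_const.mul (hψ.comp (by fun_prop))
      have hb : ∃ M : ℝ, ∀ s : ℝ, ‖((β ^ n : ℝ) : ℂ) * ψ (β ^ n * s)‖ ≤ M := by
        obtain ⟨M, hM⟩ := hM
        refine ⟨β ^ n * M, fun s => ?_⟩
        rw [norm_mul, Complex.norm_real, Real.norm_eq_abs, abs_of_pos (pow_pos hβ0 n)]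
        exact mul_le_mul_of_nonneg_left (hM _) (pow_pos hβ0 n).le
      rw [ide_step hβ hh hm hb]
      funext t
      congr 1
      funext z
      congr 1
      rw [← mul_assoc (β : ℂ)]
      congr 1
      · push_cast
        ring
      · congr 1
        ring
  exact congrFun (key n) x

end Run7.h220.BC
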