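import Pool.Agent.Run7.h608.BC.Iface

/-!
# Piece MUL of project BC
-/

set_option autoImplicit false

open MeasureTheory Set Filter Topology
open scoped ENNReal ContDiff FourierTransform

namespace Run7.h220.BC

open Run7.h608.BC

theorem T_eq_fourierInv (g : ℝ → ℂ) : T g = 𝓕⁻ g := by
  funext t
  rw [Real.fourierInv_eq']
  unfold T e
  refine integral_congr_ae (Eventually.of_forall fun ξ => ?_)
  show g ξ * _ = _ • g ξ
  rw [smul_eq_mul, mul_comm]
  congr 3
  simp only [RCLike.inner_apply, conj_trivial]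
  push_cast
  ring

theorem norm_e (θ : ℝ) : ‖e θ‖ = 1 := by
  unfold e
  exact Complex.norm_exp_ofReal_mul_I _

theorem e_add (a b : ℝ) : e (a + b) = e a * e b := by
  unfold e
  rw [← Complex.exp_add]
  congr 1
  push_cast
  ring

theorem continuous_e : Continuous e := by
  unfold e
  fun_prop

theorem t_MUL : S_MUL := by
  intro β h hh G hG
  let G' : SchwartzMap ℝ ℂ := hG.2.toSchwartzMap hG.1
  have hG' : (G' : ℝ → ℂ) = G := rfl
  have hT : T G = ((𝓕⁻ G' : SchwartzMap ℝ ℂ) : ℝ → ℂ) := by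
    rw [SchwartzMap.fourierInv_coe, hG', T_eq_fourierInv]
  have hGi : Integrable G := by
    rw [← hG']
    exact G'.integrable
  have hhi : Integrable (fun y => (h y : ℂ)) := hh.int.ofReal
  refine ⟨?_, ?_, ?_, ?_⟩
  · intro t
    -- Fubini
    have hF : Integrable (fun z : ℝ × ℝ => e (z.1 * (t - z.2)) * (G z.1 * (h z.2 : ℂ)))
        ((volume : Measure ℝ).prod volume) := by
      refine (hGi.mul_prod hhi).bdd_mul (c := 1) ?_ (Eventually.of_forall fun z => ?_)
      · exact (continuous_e.comp (by fun_prop)).aestronglyMeasurable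
      · rw [norm_e]
    have h1 : T (fun ξ => G ξ * H h ξ) t =
        ∫ ξ, ∫ y, e (ξ * (t - y)) * (G ξ * (h y : ℂ)) := by
      unfold T
      refine integral_congr_ae (Eventually.of_forall fun ξ => ?_)
      show G ξ * H h ξ * e (ξ * t) = ∫ y, e (ξ * (t - y)) * (G ξ * (h y : ℂ))
      unfold H
      rw [mul_comm (G ξ), mul_assoc, ← integral_mul_const]
      refine integral_congr_ae (Eventually.of_forall fun y => ?_)
      show (h y : ℂ) * e (-(ξ * y)) * (G ξ * e (ξ * t)) = e (ξ * (t - y)) * (G ξ * (h y : ℂ))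
      rw [show ξ * (t - y) = -(ξ * y) + ξ * t by ring, e_add]
      ring
    rw [h1, integral_integral_swap hF]
    refine integral_congr_ae (Eventually.of_forall fun y => ?_)
    show ∫ ξ, e (ξ * (t - y)) * (G ξ * (h y : ℂ)) = T G (t - y) * (h y : ℂ)
    unfold T
    rw [← integral_mul_const]
    refine integral_congr_ae (Eventually.of_forall fun ξ => ?_)
    show e (ξ * (t - y)) * (G ξ * (h y : ℂ)) = G ξ * e (ξ * (t - y)) * (h y : ℂ)
    ring
  · rw [hT]
    exact SchwartzMap.continuous _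
  · obtain ⟨C0, hC0, h0⟩ := (𝓕⁻ G' : SchwartzMap ℝ ℂ).decay 0 0
    obtain ⟨C2, hC2, h2⟩ := (𝓕⁻ G' : SchwartzMap ℝ ℂ).decay 2 0
    refine ⟨C0 + C2, fun t => ?_⟩
    have a0 := h0 t
    have a2 := h2 t
    rw [norm_iteratedFDeriv_zero, ← hT] at a0 a2
    rw [pow_zero, one_mul] at a0
    rw [Real.norm_eq_abs, sq_abs] at a2
    rw [le_div_iff₀ (by positivity)]
    nlinarith
  · have h1 : 𝓕 (𝓕⁻ G' : SchwartzMap ℝ ℂ) = G' := FourierTransform.fourier_fourierInv_eq G'
    have h2 : (𝓕 ((𝓕⁻ G' : SchwartzMap ℝ ℂ) : ℝ → ℂ)) 0 = G 0 := by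
      rw [← SchwartzMap.fourier_coe, h1]
      rfl
    rw [← h2, ← hT, Real.fourier_eq']
    refine integral_congr_ae (Eventually.of_forall fun t => ?_)
    simp

end Run7.h220.BC
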