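import Pool.Agent.Run7.h608.BC.Iface

/-!
# Piece ZER of project BC: the zeros of the Fourier transform
-/

set_option autoImplicit false

open MeasureTheory Set Filter Topology
open scoped ENNReal

namespace Run7.h220.BC

open Run7.h608.BC

theorem m_eq_zero {θ : ℝ} (h : m θ = 0) : ∃ a : ℤ, θ = a + 1 / 2 := by
  unfold m at h
  have h1 : e (-θ) = -1 := by
    have h2 : (1 : ℂ) + e (-θ) = 0 := by
      rcases div_eq_zero_iff.1 h with h3 | h3
      · exact h3
      · norm_num at h3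
    linear_combination h2
  unfold e at h1
  rw [← Complex.exp_pi_mul_I, Complex.exp_eq_exp_iff_exists_int] at h1
  obtain ⟨n, hn⟩ := h1
  have h3 := congrArg Complex.im hn
  simp at h3
  have hpi := Real.pi_pos
  refine ⟨-n - 1, ?_⟩
  have h4 : -θ = 1 / 2 + n := by
    have h5 : Real.pi * (2 * (-θ)) = Real.pi * (1 + 2 * n) := by linarith
    have h6 := mul_left_cancel₀ hpi.ne' h5
    linarith
  push_cast
  linarith

theorem mk_fe {β : ℝ} {H : ℝ → ℂ} (hH : FT β H) (k : ℕ) (ξ : ℝ) :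
    H (β ^ k * ξ) = Run7.h608.BC.mk β k ξ * H ξ := by
  induction k with
  | zero => simp [Run7.h608.BC.mk]
  | succ k ih =>
    rw [pow_succ', mul_assoc, hH.fe, ih]
    unfold Run7.h608.BC.mk
    rw [Finset.prod_range_succ]
    ring

theorem t_ZER : S_ZER := by
  intro β H hβ hH B
  have hβ0 : 0 < β := by linarith
  -- `H` does not vanish near zero
  have hc : ContinuousAt H 0 := hH.smooth.continuous.continuousAt
  have hne : ∀ᶠ η in 𝓝 (0 : ℝ), H η ≠ 0 := hc.eventually_ne (by rw [hH.zero]; exact one_ne_zero)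
  obtain ⟨r, hr, hr2⟩ := Metric.eventually_nhds_iff.1 hne
  obtain ⟨k, hk⟩ := pow_unbounded_of_one_lt ((|B| + 1) / r) hβ
  have hβk : 0 < β ^ k := pow_pos hβ0 k
  set A : ℤ := ⌈|B|⌉ + 1 with hA
  have hAB : |B| + 1 ≤ A := by
    rw [hA]
    push_cast
    linarith [Int.le_ceil |B|]
  refine Set.Finite.subset ((Finset.range k ×ˢ Finset.Icc (-A) A).image
    (fun x : ℕ × ℤ => β ^ k * (((x.2 : ℝ) + 1 / 2) / β ^ x.1))).finite_toSet ?_
  rintro ξ ⟨hξ, hξ0⟩
  have hξB : |ξ| ≤ |B| := hξ.trans (le_abs_self B)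
  set η : ℝ := ξ / β ^ k with hη
  have hηξ : β ^ k * η = ξ := by rw [hη]; field_simp
  have hη1 : H η ≠ 0 := by
    apply hr2
    rw [Real.dist_eq, sub_zero, hη, abs_div, abs_of_pos hβk, div_lt_iff₀ hβk]
    rw [div_lt_iff₀ hr] at hk
    linarith
  have h1 := mk_fe hH k η
  rw [hηξ, hξ0] at h1
  have h2 : Run7.h608.BC.mk β k η = 0 := by
    rcases mul_eq_zero.1 h1.symm with h3 | h3
    · exact h3
    · exact absurd h3 hη1
  unfold Run7.h608.BC.mk at h2
  obtain ⟨j, hj, hj2⟩ := Finset.prod_eq_zero_iff.1 h2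
  obtain ⟨a, ha⟩ := m_eq_zero hj2
  have hβj : 0 < β ^ j := pow_pos hβ0 j
  rw [Finset.coe_image]
  refine ⟨(j, a), ?_, ?_⟩
  · rw [Finset.mem_coe, Finset.mem_product]
    refine ⟨hj, ?_⟩
    -- bound for `a`
    have h3 : |β ^ j * η| ≤ |B| := by
      rw [hη, abs_mul, abs_div, abs_of_pos hβj, abs_of_pos hβk]
      have h4 : β ^ j ≤ β ^ k := pow_le_pow_right₀ hβ.le (Finset.mem_range.1 hj).le
      calc β ^ j * (|ξ| / β ^ k) = (β ^ j / β ^ k) * |ξ| := by ring
        _ ≤ 1 * |ξ| := by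
            gcongr
            exact (div_le_one hβk).2 h4
        _ ≤ |B| := by linarith
    rw [ha] at h3
    have h5 := abs_le.1 h3
    rw [Finset.mem_Icc]
    constructor
    · have h6 : (-A : ℝ) ≤ a := by linarith
      exact_mod_cast h6
    · have h6 : (a : ℝ) ≤ A := by linarith
      exact_mod_cast h6
  · show β ^ k * (((a : ℝ) + 1 / 2) / β ^ j) = ξ
    rw [← ha, ← hηξ]
    field_simp

end Run7.h220.BC
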